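import Pool.Agent.Lib.BCC.BLang

/-!
# Minimal rational cones contain no nonrational bounded context-free language (MP_f1c4ef_lc)
-/

set_option autoImplicit false

namespace Pool.Agent.Results.MP_f1c4ef_lc.BoundedLanguages

open Pool.Agent.Lib.F1c4 Pool.Agent.Lib.BCC

/-- Let `F` be a minimal rational cone and let `A ∈ F` be contained in `w_0^* w_1^* ... w_(k-1)^*`.
If the set of the exponent vectors `n` with `w_0^(n 0) ... w_(k-1)^(n (k-1)) ∈ A` is semilinear, or
if all languages in `F` are context-free, then `A` is regular. -/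
theorem result (F : Set (Language ℕ)) (hF : IsMinimal F) {k : ℕ} (w : Fin k → List ℕ)
    (A : Language ℕ) (hA : A ∈ F) (hb : ∀ v ∈ A, ∃ n : Fin k → ℕ, v = pw w n)
    (h : IsSemilinearSet {n : Fin k → ℕ | pw w n ∈ A} ∨ ∀ L ∈ F, L.IsContextFree) :
    A.IsRegular := by
  rcases h with h | h
  · exact sem hF w hA hb h
  · exact cfl hF h w hA hb

end Pool.Agent.Results.MP_f1c4ef_lc.BoundedLanguages
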