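import Pool.Agent.Lib.DCF.Det
import Pool.Agent.Lib.DCF.Sec

/-!
# Minimal rational cones of context-free languages contain no nonrational deterministic language
(MP_f1c4ef_lc)
-/

set_option autoImplicit false

namespace Pool.Agent.Results.MP_f1c4ef_lc.DeterministicLanguages

open Pool.Agent.Lib.F1c4 Pool.Agent.Lib.DCF

/-- Let `F` be a minimal rational cone all of whose languages are context-free, and let `L ∈ F` be
accepted by a deterministic pushdown automaton (with `ε`-moves, by final state). Then `L` is regular. -/
theorem result (F : Set (Language ℕ)) (hF : IsMinimal F) (hcf : ∀ L ∈ F, L.IsContextFree)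
    (L : Language ℕ) (hL : L ∈ F) (hd : IsDCF L) : L.IsRegular := by
  obtain ⟨S, hS⟩ := hF.1.alph L hL
  exact det_reg hd hS (sec_reg hF hcf hL)

end Pool.Agent.Results.MP_f1c4ef_lc.DeterministicLanguages
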