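import Pool.Agent.Lib.GCH.Full

/-!
# Minimal rational cones and the nonprefixes of an infinite word (MP_f1c4ef_lc)
-/

set_option autoImplicit false

namespace Pool.Agent.Results.MP_f1c4ef_lc.InfiniteWords

open Pool.Agent.Lib.F1c4

/-- Let `F` be a minimal rational cone, `x` an infinite word over a finite alphabet `S`, and `R` a
regular language which contains infinitely many prefixes of `x`. If some language `L ∈ F` contains,
among the words of `R` over `S`, exactly those which are not prefixes of `x`, then `x` is ultimately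
periodic. -/
theorem result (F : Set (Language ℕ)) (hF : IsMinimal F) (S : Finset ℕ) (x : ℕ → ℕ)
    (hx : ∀ i, x i ∈ S) (R : Language ℕ) (hR : R.IsRegular)
    (hi : {n : ℕ | (List.range n).map x ∈ R}.Infinite) (L : Language ℕ) (hL : L ∈ F)
    (hLR : ∀ v : List ℕ, (∀ a ∈ v, a ∈ S) → v ∈ R →
      (v ∈ L ↔ ∀ n : ℕ, v ≠ (List.range n).map x)) :
    ∃ N p : ℕ, 0 < p ∧ ∀ n, N ≤ n → x (n + p) = x n :=
  Pool.Agent.Lib.GCH.full hF S x hx R hR L hL hLR hi

end Pool.Agent.Results.MP_f1c4ef_lc.InfiniteWords
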