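import Pool.Agent.Lib.F1c4.Final

/-!
# A uniformity principle for minimal rational cones (MP_f1c4ef_lc)
-/

set_option autoImplicit false

namespace Pool.Agent.Results.MP_f1c4ef_lc.UniformResiduals

open Pool.Agent.Lib.F1c4

/-- Let `F` be a minimal rational cone, `A ∈ F`, `x`, `y` words and `Γ` a finite alphabet. Suppose
that for all large `j` the set of the words `u` over `Γ` with `x y ^ j u ∉ A` is regular, and that
for every word `u` over `Γ` the word `x y ^ j u` is in `A` for all large `j`. Then for infinitely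
many `j` all words `x y ^ j u` with `u` over `Γ` are in `A`. The same holds for `u y ^ j x`. -/
theorem result (F : Set (Language ℕ)) (hF : IsMinimal F) (A : Language ℕ) (hA : A ∈ F)
    (r : Bool) (x y : List ℕ) (Γ : Finset ℕ)
    (hreg : ∀ᶠ j : ℕ in Filter.atTop, Language.IsRegular
      ({u : List ℕ | (∀ a ∈ u, a ∈ Γ) ∧ word r x y u j ∉ A} : Language ℕ))
    (h : ∀ u : List ℕ, (∀ a ∈ u, a ∈ Γ) → ∀ᶠ j : ℕ in Filter.atTop, word r x y u j ∈ A) :
    ∃ᶠ j : ℕ in Filter.atTop, ∀ u : List ℕ, (∀ a ∈ u, a ∈ Γ) → word r x y u j ∈ A :=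
  FinalAux.uniform hF hA r x y Γ hreg h

end Pool.Agent.Results.MP_f1c4ef_lc.UniformResiduals
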